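import Mathlib

/-!
Artin groups and the two descriptions of their automorphism groups.
-/

set_option autoImplicit false

namespace Pool.Agent.Helper65.SPT

/-- The product `s t s t ⋯` with `n` factors. -/
def alt {G : Type} [Monoid G] : G → G → ℕ → G
  | _, _, 0 => 1
  | s, t, n + 1 => s * alt t s n

/-- The relators of the Artin group of a Coxeter matrix: `(s t s ⋯) (t s t ⋯)⁻¹`, with `m(s,t)` factors
in each of the two products. -/
def rels {S : Type} (M : CoxeterMatrix S) : Set (FreeGroup S) :=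
  {w | ∃ s t, w = alt (FreeGroup.of s) (FreeGroup.of t) (M s t) *
    (alt (FreeGroup.of t) (FreeGroup.of s) (M s t))⁻¹}

/-- The standard generators `s_i` of the Artin group of a Coxeter matrix. -/
def gen {S : Type} (M : CoxeterMatrix S) (s : S) : PresentedGroup (rels M) := PresentedGroup.of s

/-- The group of inner automorphisms. -/
def Inn (G : Type) [Group G] : Subgroup (MulAut G) := (MulAut.conj : G →* MulAut G).range

instance (G : Type) [Group G] : (Inn G).Normal :=
  ⟨by rintro _ ⟨x, rfl⟩ φ; exact ⟨φ x, by ext y; simp⟩⟩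

/-- The outer automorphism group. -/
abbrev Out (G : Type) [Group G] : Type := MulAut G ⧸ Inn G

/-- The extension of `Out G` by `Inn G` splits. -/
def Splits (G : Type) [Group G] : Prop :=
  ∃ σ : Out G →* MulAut G, ∀ o, QuotientGroup.mk (σ o) = o

/-- The group `G` has the generators `a 0, a 1, …`; let `c` be their product. The centre of `G` consists of
the powers of `c ^ m`; there is an automorphism `ε` with `a i ↦ (a i)⁻¹`, `ε² = 1`; every automorphism is
`conj x` or `conj x * ε`; `Out G` has order two and is generated by the class of `ε`; the extension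
splits. -/
def OutOrderTwo {n : ℕ} {G : Type} [Group G] (a : Fin n → G) (m : ℕ) : Prop :=
  Subgroup.center G = Subgroup.zpowers ((List.ofFn a).prod ^ m) ∧
  ∃ ε : MulAut G, (∀ i, ε (a i) = (a i)⁻¹) ∧ ε * ε = 1 ∧
    (∀ φ : MulAut G, ∃ x : G, φ = MulAut.conj x ∨ φ = MulAut.conj x * ε) ∧
    (∃ e : Out G ≃* ℤˣ, e (QuotientGroup.mk ε) = -1) ∧ Splits G

/-- The group `G` has the generators `a 0, …, a 3`; let `c` be their product and `z = c ^ m`. The centre of
`G` consists of the powers of `z`; there are automorphisms `T` (`a 0, a 1 ↦ a 0 z, a 1 z`;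
`a 2, a 3 ↦ a 2 z⁻¹, a 3 z⁻¹`), `θ` (`a i ↦ a (3 - i)`) and `ε` (`a i ↦ (a i)⁻¹`) with `θ² = ε² = 1`,
`θ T θ = T⁻¹`, and `ε` commutes with `T` and `θ`; every automorphism is `conj x * T ^ k * θ ^ u * ε ^ v`; `Out G` is the product of the infinite dihedral group, with the classes of
`T` (a translation) and `θ` (a reflection), and of the group of order two, with the class of `ε`; the
extension splits. -/
def OutDihedral {G : Type} [Group G] (a : Fin 4 → G) (m : ℕ) : Prop :=
  Subgroup.center G = Subgroup.zpowers ((List.ofFn a).prod ^ m) ∧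
  ∃ T θ ε : MulAut G,
    (∀ i, T (a i) = a i * ((List.ofFn a).prod ^ m) ^ (if i.val ≤ 1 then (1 : ℤ) else -1)) ∧
    (∀ i, θ (a i) = a (Fin.rev i)) ∧ (∀ i, ε (a i) = (a i)⁻¹) ∧
    θ * θ = 1 ∧ ε * ε = 1 ∧ θ * T * θ = T⁻¹ ∧ ε * T = T * ε ∧ ε * θ = θ * ε ∧
    (∀ φ : MulAut G, ∃ (x : G) (k : ℤ) (u v : Fin 2),
      φ = MulAut.conj x * T ^ k * θ ^ u.val * ε ^ v.val) ∧
    (∃ e : Out G ≃* DihedralGroup 0 × ℤˣ, e (QuotientGroup.mk T) = (DihedralGroup.r 1, 1) ∧
      e (QuotientGroup.mk θ) = (DihedralGroup.sr 0, 1) ∧ e (QuotientGroup.mk ε) = (1, -1)) ∧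
    Splits G

end Pool.Agent.Helper65.SPT
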