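import Pool.Agent.SPH.Uni
import Pool.Agent.SPH.UniF
import Pool.Agent.SPH.E6.Desc
import Pool.Agent.SPH.E7.Main
import Pool.Agent.SPH.E8.Main
import Pool.Agent.Helper65.SPT.Defs

set_option autoImplicit false

namespace Pool.Agent.Helper65.SPT

theorem alt_eq {G : Type} [Monoid G] (n : ℕ) : ∀ s t : G, alt s t n =
    Pool.Agent.Helper7.AG.alt s t n := by
  induction n with
  | zero => intro s t; rfl
  | succ n ih => intro s t; unfold alt Pool.Agent.Helper7.AG.alt; rw [ih]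

theorem rels_eq {S : Type} (M : CoxeterMatrix S) : rels M = Pool.Agent.Helper7.AG.rels M := by
  unfold rels Pool.Agent.Helper7.AG.rels
  simp only [alt_eq]

theorem orderTwo_of {n : ℕ} {M : CoxeterMatrix (Fin n)} {m : ℕ} (h : Pool.Agent.SPH.AutDesc M m) :
    OutOrderTwo (gen M) m := by
  have key : ∀ R : Set (FreeGroup (Fin n)), R = Pool.Agent.Helper7.AG.rels M →
      OutOrderTwo (fun i => (PresentedGroup.of i : PresentedGroup R)) m := by
    rintro _ rfl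
    obtain ⟨ε, h1, h2, h3, h4, h5, h6⟩ := h
    refine ⟨h4, ε, h1, h2, fun φ => ?_, h5, h6⟩
    obtain ⟨x, u, hx⟩ := h3.1 φ
    refine ⟨x, ?_⟩
    cases u
    · left
      simpa [Pool.Agent.HT.tw] using hx
    · right
      simpa [Pool.Agent.HT.tw] using hx
  exact key _ (rels_eq M)

theorem dihedral_F4 : OutDihedral (gen CoxeterMatrix.F₄) 6 := by
  have key : ∀ R : Set (FreeGroup (Fin 4)), R = Pool.Agent.Helper7.AG.rels CoxeterMatrix.F₄ →
      OutDihedral (fun i => (PresentedGroup.of i : PresentedGroup R)) 6 := by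
    rintro _ rfl
    obtain ⟨T, θ, ε, h1, h2, h3, h4, h5, h6, h7, h8⟩ := Pool.Agent.SPH.desc_F4
    refine ⟨h6, T, θ, ε, h1, h2, h3, h4.θθ, h4.εε, h4.θT, h4.εT, h4.εθ, fun φ => ?_, h7, h8⟩
    obtain ⟨x, k, u, v, hx⟩ := h5.1 φ
    refine ⟨x, k, if u then 1 else 0, if v then 1 else 0, ?_⟩
    rw [hx]
    cases u <;> cases v <;> simp [Pool.Agent.SPH.tw4]
  exact key _ (rels_eq _)

theorem main : OutOrderTwo (gen CoxeterMatrix.H₃) 5 ∧ OutOrderTwo (gen CoxeterMatrix.H₄) 15 ∧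
    OutOrderTwo (gen CoxeterMatrix.E₆) 12 ∧ OutOrderTwo (gen CoxeterMatrix.E₇) 9 ∧
    OutOrderTwo (gen CoxeterMatrix.E₈) 15 ∧ OutDihedral (gen CoxeterMatrix.F₄) 6 :=
  ⟨orderTwo_of Pool.Agent.SPH.desc_H3, orderTwo_of Pool.Agent.SPH.desc_H4,
    orderTwo_of Pool.Agent.SPH.desc_E6, orderTwo_of Pool.Agent.SPH.desc_E7,
    orderTwo_of Pool.Agent.SPH.desc_E8, dihedral_F4⟩

end Pool.Agent.Helper65.SPT
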